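import Pool.Agent.Helper33.DP3.Sheet

/-!
# Rows GB3 and START3 of the sheet (MP_fcb106_co, version 3)
-/

set_option autoImplicit false

namespace Pool.Agent.Helper75.PL

open Finset Pool.Agent.Helper33.DP Pool.Agent.Helper33.DP3

/-- A core has at least `w` edges. -/
theorem core_card {w : ℕ} {G : Gr w} (hG : IsCore G) : w ≤ G.card := by
  obtain ⟨σ, hσ⟩ := hG.ex
  have h1 : (univ.image (fun i : Fin w => (i, σ i))).card = w := by
    rw [card_image_of_injective _ (fun i j h => (Prod.mk.inj h).1), card_univ, Fintype.card_fin]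
  have h2 : univ.image (fun i : Fin w => (i, σ i)) ⊆ G := by
    intro e he
    rw [mem_image] at he
    obtain ⟨i, -, rfl⟩ := he
    exact hσ i
  calc w = _ := h1.symm
    _ ≤ G.card := card_le_card h2

theorem gam_ge {w : ℕ} {G : Gr w} (hw : 1 ≤ w) (hG : IsCore G) : 3 * (w : ℝ) ≤ gam w G.card := by
  have h1 : (1 : ℝ) ≤ w := by exact_mod_cast hw
  have h2 : (w : ℝ) ≤ G.card := by exact_mod_cast core_card hG
  unfold gam
  have h3 : (1 : ℝ) ≤ G.card := h1.trans h2
  have h4 : 3 * (w : ℝ) * 1 ≤ 3 * w * (G.card : ℝ) :=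
    mul_le_mul_of_nonneg_left h3 (by positivity)
  linarith

theorem GB3 (hBDR : ST_BDR) (hBB3 : ST_BB3) : ST_GB3 := by
  intro w G μ hw hG hμ
  obtain ⟨h0, ρ, dR, dC, hz, he, hρ, hR, hC⟩ := hμ
  have hw1 : (1 : ℝ) ≤ w := by exact_mod_cast hw
  have hg := gam_ge hw hG
  have hgp : 0 < gam w G.card := by linarith
  have hd : (0 : ℝ) ≤ 2 * ((w : ℝ) - 1) := by linarith
  have hdb : 2 * ((w : ℝ) - 1) * (1 / gam w G.card) < 1 := by
    rw [mul_one_div, div_lt_one hgp]
    linarith
  have hB := hBDR w G ρ (fun a b => (μ a b : ℝ)) (1 / gam w G.card) (2 * ((w : ℝ) - 1)) hG hd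
    (by positivity) hdb hρ
    (fun a b _ => by
      have h1 := (abs_le.mp (hBB3 w (dR a) (hR a) b)).1
      have h2 := (abs_le.mp (hBB3 w (fun a => dC a b) (hC b) a)).1
      have h3 := he a b
      linarith)
  have hq : 1 / gam w G.card / (1 - 2 * ((w : ℝ) - 1) * (1 / gam w G.card)) =
      1 / (gam w G.card - 2 * (w - 1)) := by
    have h5 : gam w G.card - 2 * ((w : ℝ) - 1) ≠ 0 := by linarith
    have h6 : 1 - 2 * ((w : ℝ) - 1) * (1 / gam w G.card) ≠ 0 := by linarith
    rw [div_div, mul_sub, mul_one]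
    congr 1
    rw [mul_comm (gam w G.card) (2 * ((w : ℝ) - 1) * (1 / gam w G.card)), mul_assoc,
      one_div_mul_cancel (ne_of_gt hgp)]
    ring
  rw [hq] at hB
  refine ⟨fun a b hab => ?_, hB⟩
  have := hB.pos a b hab
  have h2 : 0 < μ a b := by exact_mod_cast this
  exact h2

theorem BB_zero' {w : ℕ} : BB (fun _ : Fin w => (0 : ℝ)) := by
  refine ⟨by simp, fun S => ?_⟩
  have h1 : (S.card : ℝ) ≤ w := by
    have := card_le_univ S
    rw [Fintype.card_fin] at this
    exact_mod_cast this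
  simp only [sum_const_zero]
  exact mul_nonneg (by positivity) (by linarith)

theorem START3 : ST_START3 := by
  intro w hw
  have hw0 : (0 : ℝ) < w := by exact_mod_cast hw
  refine ⟨fun a b h => absurd (mem_univ _) h, fun _ _ => ((3 * w ^ 4 : ℕ) : ℝ), fun _ _ => 0,
    fun _ _ => 0, fun a b h => absurd (mem_univ _) h, fun a b => by simp,
    ⟨fun a b _ => by push_cast; positivity, fun σ _ => ?_⟩, fun _ => BB_zero', fun _ => BB_zero'⟩
  have hc : (univ : Gr w).card = w ^ 2 := by
    rw [card_univ, Fintype.card_prod, Fintype.card_fin]; ring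
  rw [hc]
  simp only [sum_const, card_univ, Fintype.card_fin, nsmul_eq_mul]
  unfold gam
  push_cast
  apply le_of_eq
  field_simp

end Pool.Agent.Helper75.PL
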