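import Pool.Agent.Helper33.DP.Sheet

/-!
# Row CORE of the sheet (MP_fcb106_co): Hall
-/

set_option autoImplicit false

namespace Pool.Agent.Helper75.PL

open Finset Pool.Agent.Helper33.DP

theorem Anti_inj {w : ℕ} {P : Set ℕ} {le : ℕ → ℕ → Prop} (hP : PO P le w) {X : Fin w → ℕ}
    (hX : Anti P le X) : Function.Injective X := by
  intro i j hij
  by_contra hne
  apply hX.2 i j hne
  rw [← hij]
  exact hP.refl _ (hX.1 i)

/-- A perfect matching of the comparabilities. -/
theorem exists_matching {w : ℕ} {P : Set ℕ} {le : ℕ → ℕ → Prop} (hP : PO P le w)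
    {X Y : Fin w → ℕ} (hX : Anti P le X) (hY : Anti P le Y) (hXY : Bel le X Y) :
    ∃ σ : Equiv.Perm (Fin w), ∀ i, le (X i) (Y (σ i)) := by
  classical
  have hall : ∀ S : Finset (Fin w),
      S.card ≤ (S.biUnion (fun i => univ.filter (fun j => le (X i) (Y j)))).card := by
    intro S
    set T := S.biUnion (fun i => univ.filter (fun j => le (X i) (Y j))) with hT
    have hmem : ∀ i ∈ S, ∀ j, j ∉ T → ¬ le (X i) (Y j) := by
      intro i hi j hj hle
      apply hj
      rw [hT, mem_biUnion]
      exact ⟨i, hi, by simp [hle]⟩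
    have hdisj : Disjoint (S.image X) (Tᶜ.image Y) := by
      rw [disjoint_left]
      intro n hn hn'
      rw [mem_image] at hn hn'
      obtain ⟨i, hi, rfl⟩ := hn
      obtain ⟨j, hj, hje⟩ := hn'
      apply hmem i hi j (by simpa using hj)
      rw [hje]
      exact hP.refl _ (hX.1 i)
    have hcard := hP.width (S.image X ∪ Tᶜ.image Y) (by
      intro a ha
      rw [mem_union, mem_image, mem_image] at ha
      rcases ha with ⟨i, _, rfl⟩ | ⟨j, _, rfl⟩
      · exact hX.1 i
      · exact hY.1 j) (by
      intro a ha b hb hab hle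
      rw [mem_union, mem_image, mem_image] at ha hb
      rcases ha with ⟨i, hi, rfl⟩ | ⟨j, hj, rfl⟩
      · rcases hb with ⟨i', hi', rfl⟩ | ⟨j', hj', rfl⟩
        · exact hX.2 i i' (fun h => hab (by rw [h])) hle
        · exact hmem i hi j' (by simpa using hj') hle
      · rcases hb with ⟨i', hi', rfl⟩ | ⟨j', hj', rfl⟩
        · obtain ⟨b, hb⟩ := hXY i'
          have h1 : le (Y j) (Y b) := hP.trans _ _ _ hle hb
          have h2 : j = b := by
            by_contra hne
            exact hY.2 j b hne h1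
          subst h2
          exact hmem i' hi' j (by simpa using hj) hb
        · exact hY.2 j j' (fun h => hab (by rw [h])) hle)
    rw [card_union_of_disjoint hdisj, card_image_of_injective _ (Anti_inj hP hX),
      card_image_of_injective _ (Anti_inj hP hY), card_compl, Fintype.card_fin] at hcard
    have hTw : T.card ≤ w := by
      have := card_le_univ T
      rwa [Fintype.card_fin] at this
    omega
  obtain ⟨f, hf, hf'⟩ := (all_card_le_biUnion_card_iff_exists_injective
    (fun i : Fin w => univ.filter (fun j : Fin w => le (X i) (Y j)))).mp hall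
  refine ⟨Equiv.ofBijective f (Finite.injective_iff_bijective.mp hf), fun i => ?_⟩
  have := hf' i
  simpa using this

theorem mem_core {w : ℕ} {le : ℕ → ℕ → Prop} {X Y : Fin w → ℕ} {a b : Fin w} :
    (a, b) ∈ core le X Y ↔ ∃ σ : Equiv.Perm (Fin w), σ a = b ∧ ∀ i, le (X i) (Y (σ i)) := by
  unfold core; simp

theorem CORE : ST_CORE := by
  intro w P le X Y hP hX hY hXY
  have key : ∀ σ : Equiv.Perm (Fin w), (∀ i, le (X i) (Y (σ i))) → PM (core le X Y) σ :=
    fun σ hσ i => mem_core.mpr ⟨σ, rfl, hσ⟩
  refine ⟨?_, fun a b hab => ?_⟩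
  · obtain ⟨σ, hσ⟩ := exists_matching hP hX hY hXY
    exact ⟨σ, key σ hσ⟩
  · obtain ⟨σ, h1, h2⟩ := mem_core.mp hab
    exact ⟨σ, key σ h2, h1⟩

end Pool.Agent.Helper75.PL
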