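import Pool.Agent.Helper33.DP.Sheet

/-!
# Rows GB and START of the sheet (MP_fcb106_co)
-/

set_option autoImplicit false

namespace Pool.Agent.Helper75.PL

open Finset Pool.Agent.Helper33.DP

theorem Bdd_mono {w : ℕ} {G : Gr w} {μ : Fin w → Fin w → ℝ} {β β' : ℝ} (h : Bdd G μ β)
    (hb : β ≤ β') : Bdd G μ β' :=
  ⟨h.pos, fun σ hσ => (h.le σ hσ).trans hb⟩

theorem bet_pos {w : ℕ} (hw : 1 ≤ w) (m : ℕ) : 0 < bet w m := by
  unfold bet be0
  have : (0 : ℝ) < w := by exact_mod_cast hw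
  positivity

theorem bet_le {w : ℕ} (hw : 1 ≤ w) (m : ℕ) : bet w m ≤ 3 * be0 w := by
  have hw0 : (0 : ℝ) < w := by exact_mod_cast hw
  have hb : 0 < be0 w := by unfold be0; positivity
  have h1 : (1 : ℝ) ≤ 1 + 1 / (w : ℝ) ^ 2 := by
    have : (0 : ℝ) ≤ 1 / (w : ℝ) ^ 2 := by positivity
    linarith
  have h2 : (1 + 1 / (w : ℝ) ^ 2) ^ (w ^ 2 - m) ≤ (1 + 1 / (w : ℝ) ^ 2) ^ (w ^ 2) :=
    pow_le_pow_right₀ h1 (Nat.sub_le _ _)
  have h3 : (1 + 1 / (w : ℝ) ^ 2) ^ (w ^ 2) ≤ Real.exp 1 := by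
    have h4 : 1 + 1 / (w : ℝ) ^ 2 ≤ Real.exp (1 / (w : ℝ) ^ 2) := by
      have := Real.add_one_le_exp (1 / (w : ℝ) ^ 2)
      linarith
    calc (1 + 1 / (w : ℝ) ^ 2) ^ (w ^ 2) ≤ (Real.exp (1 / (w : ℝ) ^ 2)) ^ (w ^ 2) :=
          pow_le_pow_left₀ (by linarith) h4 _
      _ = Real.exp (((w ^ 2 : ℕ) : ℝ) * (1 / (w : ℝ) ^ 2)) := by rw [← Real.exp_nat_mul]
      _ = Real.exp 1 := by
          congr 1
          push_cast
          field_simp
  have h5 : Real.exp 1 ≤ 3 := by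
    have := Real.exp_one_lt_d9
    linarith
  unfold bet
  calc be0 w * (1 + 1 / (w : ℝ) ^ 2) ^ (w ^ 2 - m) ≤ be0 w * 3 :=
        mul_le_mul_of_nonneg_left (h2.trans (h3.trans h5)) hb.le
    _ = 3 * be0 w := by ring

theorem bet_anti {w : ℕ} (hw : 1 ≤ w) {m m' : ℕ} (h : m ≤ m') : bet w m' ≤ bet w m := by
  have hw0 : (0 : ℝ) < w := by exact_mod_cast hw
  have hb : 0 < be0 w := by unfold be0; positivity
  have h1 : (1 : ℝ) ≤ 1 + 1 / (w : ℝ) ^ 2 := by
    have : (0 : ℝ) ≤ 1 / (w : ℝ) ^ 2 := by positivity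
    linarith
  unfold bet
  exact mul_le_mul_of_nonneg_left (pow_le_pow_right₀ h1 (by omega)) hb.le

theorem bet_succ {w : ℕ} {m m' : ℕ} (hw : 1 ≤ w) (h : m < m') (h' : m' ≤ w ^ 2) :
    (1 + 1 / (w : ℝ) ^ 2) * bet w m' ≤ bet w m := by
  have h2 : (1 + 1 / (w : ℝ) ^ 2) * bet w m' = bet w (m' - 1) := by
    unfold bet
    have : w ^ 2 - (m' - 1) = (w ^ 2 - m') + 1 := by omega
    rw [this, pow_succ]
    ring
  rw [h2]
  exact bet_anti hw (by omega)

theorem yy_pos {w : ℕ} (hw : 1 ≤ w) : 0 < yy w := by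
  have hw0 : (0 : ℝ) < w := by exact_mod_cast hw
  unfold yy; positivity

theorem yy_le {w : ℕ} (hw : 1 ≤ w) : yy w ≤ 1 / 8 := by
  have hw1 : (1 : ℝ) ≤ w := by exact_mod_cast hw
  unfold yy
  have : (1 : ℝ) ≤ (w : ℝ) ^ 2 := one_le_pow₀ hw1
  apply one_div_le_one_div_of_le (by norm_num)
  linarith

/-- The numbers: the relative error is at most `yy w`. -/
theorem err_le {w : ℕ} (hw : 1 ≤ w) (m : ℕ) : 4 * w * EE w * bet w m ≤ yy w := by
  have hw0 : (0 : ℝ) < w := by exact_mod_cast hw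
  have h1 := bet_le hw m
  have h2 : 4 * w * EE w * bet w m ≤ 4 * w * EE w * (3 * be0 w) := by
    apply mul_le_mul_of_nonneg_left h1
    unfold EE; positivity
  refine h2.trans ?_
  unfold EE be0 yy
  have : 4 * (w : ℝ) * (64 * (w : ℝ) ^ 8) * (3 * (1 / (8192 * (w : ℝ) ^ 11))) =
      (3 / 4) * (1 / (8 * (w : ℝ) ^ 2)) := by
    field_simp
    norm_num
  rw [this]
  have h3 : (0 : ℝ) < 1 / (8 * (w : ℝ) ^ 2) := by positivity
  linarith

theorem GB (hBDR : ST_BDR) (hERU : ST_ERU) : ST_GB := by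
  intro w G μ hw hG hμ
  obtain ⟨h0, ρ, hρ0, hρ, herr⟩ := hμ
  have hE : 0 ≤ EE w := by unfold EE; positivity
  have hent := hERU w _ (EE w) hE herr
  have hbp := bet_pos hw G.card
  have hye := err_le hw G.card
  have hy1 := yy_le hw
  have hd : 0 ≤ 4 * w * EE w := by positivity
  have hdb : 4 * w * EE w * bet w G.card < 1 := by linarith
  have hB := hBDR w G ρ (fun a b => (μ a b : ℝ)) (bet w G.card) (4 * w * EE w) hG hd hbp hdb hρ
    (fun a b _ => by
      have := hent a b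
      have h2 := (abs_le.mp this).1
      linarith)
  refine ⟨fun a b hab => ?_, Bdd_mono hB ?_⟩
  · have := hB.pos a b hab
    have h2 : 0 < μ a b := by exact_mod_cast this
    exact h2
  · apply div_le_div_of_nonneg_left hbp.le (by linarith) (by linarith)

theorem START : ST_START := by
  intro w hw
  have hw0 : (0 : ℝ) < w := by exact_mod_cast hw
  refine ⟨fun a b h => absurd (mem_univ _) h, fun _ _ => ((8192 * w ^ 12 : ℕ) : ℝ),
    fun a b h => absurd (mem_univ _) h, ⟨fun a b _ => ?_, fun σ _ => ?_⟩, ?_⟩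
  · push_cast; positivity
  · have hc : (univ : Gr w).card = w ^ 2 := by
      rw [card_univ, Fintype.card_prod, Fintype.card_fin]; ring
    rw [hc]
    simp only [sum_const, card_univ, Fintype.card_fin, nsmul_eq_mul]
    unfold bet be0
    rw [Nat.sub_self, pow_zero, mul_one]
    push_cast
    apply le_of_eq
    field_simp
  · intro q v
    simp only [sub_self, mul_zero, zero_mul, sum_const_zero, abs_zero]
    have hE : 0 ≤ EE w := by unfold EE; positivity
    have h1 : ∀ u : Fin w → ℝ, 0 ≤ nrm u := fun u => sum_nonneg (fun _ _ => abs_nonneg _)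
    have h2 : ∀ u : Fin w → ℝ, 0 ≤ Phi u := fun u =>
      sum_nonneg (fun _ _ => sum_nonneg (fun _ _ => abs_nonneg _))
    have := h1 q; have := h1 v; have := h2 q; have := h2 v
    positivity

end Pool.Agent.Helper75.PL
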