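import Pool.Agent.Helper33.DP.Sheet

/-!
# Row GT of the sheet (MP_fcb106_co): transposition
-/

set_option autoImplicit false

namespace Pool.Agent.Helper75.PL

open Finset Pool.Agent.Helper33.DP

@[simp] theorem mem_tr {w : ℕ} {G : Gr w} {a b : Fin w} : (a, b) ∈ tr G ↔ (b, a) ∈ G := by
  unfold tr
  rw [mem_map]
  constructor
  · rintro ⟨⟨x, y⟩, hx, he⟩
    simp only [Equiv.coe_toEmbedding, Equiv.prodComm_apply, Prod.swap_prod_mk, Prod.mk.injEq] at he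
    obtain ⟨h1, h2⟩ := he
    subst h1; subst h2
    exact hx
  · intro h
    exact ⟨(b, a), h, rfl⟩

@[simp] theorem card_tr {w : ℕ} (G : Gr w) : (tr G).card = G.card := by
  unfold tr; rw [card_map]

theorem tr_tr {w : ℕ} (G : Gr w) : tr (tr G) = G := by
  ext ⟨a, b⟩; simp

theorem PM_tr {w : ℕ} {G : Gr w} {σ : Equiv.Perm (Fin w)} : PM (tr G) σ ↔ PM G σ⁻¹ := by
  unfold PM
  constructor
  · intro h i
    have := h (σ⁻¹ i)
    rw [mem_tr] at this
    simpa using this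
  · intro h i
    rw [mem_tr]
    have := h (σ i)
    simpa using this

theorem IsCore_tr {w : ℕ} {G : Gr w} (h : IsCore G) : IsCore (tr G) := by
  refine ⟨?_, ?_⟩
  · obtain ⟨σ, hσ⟩ := h.ex
    exact ⟨σ⁻¹, by rw [PM_tr, inv_inv]; exact hσ⟩
  · intro a b hab
    rw [mem_tr] at hab
    obtain ⟨σ, hσ, he⟩ := h.edge b a hab
    refine ⟨σ⁻¹, by rw [PM_tr, inv_inv]; exact hσ, ?_⟩
    rw [← he]; simp

theorem mem_comp {w : ℕ} {G₁ G₂ : Gr w} {a b : Fin w} :
    (a, b) ∈ comp G₁ G₂ ↔ ∃ x, (a, x) ∈ G₁ ∧ (x, b) ∈ G₂ := by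
  unfold comp; simp

theorem comp_tr {w : ℕ} (G₁ G₂ : Gr w) : comp (tr G₂) (tr G₁) = tr (comp G₁ G₂) := by
  ext ⟨a, b⟩
  rw [mem_comp, mem_tr, mem_comp]
  constructor
  · rintro ⟨x, h1, h2⟩
    exact ⟨x, by simpa using h2, by simpa using h1⟩
  · rintro ⟨x, h1, h2⟩
    exact ⟨x, by simpa using h2, by simpa using h1⟩

theorem Route_tr {w : ℕ} {G₁ G₂ : Gr w} {μ : Fin w → Fin w → ℕ} {z : Fin w → Fin w → Fin w → ℕ}
    (h : Route G₁ G₂ μ z) : Route (tr G₂) (tr G₁) (fun a b => μ b a) (fun a x b => z b x a) := by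
  refine ⟨fun a x b hz => ?_, fun a b hab => ?_⟩
  · have := h.supp b x a hz
    exact ⟨by simpa using this.2, by simpa using this.1⟩
  · rw [comp_tr, mem_tr] at hab
    exact h.sum b a hab

theorem Bdd_tr {w : ℕ} {G : Gr w} {μ : Fin w → Fin w → ℝ} {β : ℝ} (h : Bdd G μ β) :
    Bdd (tr G) (fun a b => μ b a) β := by
  refine ⟨fun a b hab => h.pos b a (by simpa using hab), fun σ hσ => ?_⟩
  rw [PM_tr] at hσ
  have := h.le _ hσ
  rw [← Equiv.sum_comp σ] at this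
  simpa using this

theorem ErrLe_tr {w : ℕ} {δ : Fin w → Fin w → ℝ} {E : ℝ} (h : ErrLe δ E) :
    ErrLe (fun a b => δ b a) E := by
  intro q v
  have := h v q
  rw [sum_comm] at this
  have h2 : ∑ a, ∑ b, q a * δ b a * v b = ∑ y, ∑ x, v x * δ x y * q y := by
    apply sum_congr rfl; intro a _
    apply sum_congr rfl; intro b _
    ring
  rw [h2]
  refine this.trans (le_of_eq ?_)
  ring

theorem GT : ST_GT := by
  intro w G μ hμ
  obtain ⟨h0, ρ, hρ0, hρ, herr⟩ := hμ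
  refine ⟨fun a b hab => h0 b a (fun h => hab (by simpa using h)), fun a b => ρ b a,
    fun a b hab => hρ0 b a (fun h => hab (by simpa using h)), ?_, ErrLe_tr herr⟩
  rw [card_tr]
  exact Bdd_tr hρ

theorem StepC_tr {w : ℕ} {G₁ G₂ : Gr w} {μ : Fin w → Fin w → ℕ}
    (h : StepC (tr G₂) (tr G₁) (fun a b => μ b a)) : StepC G₁ G₂ μ := by
  obtain ⟨z, hz, h1, h2⟩ := h
  have hz' := Route_tr hz
  have h1' := GT w _ _ h1
  have h2' := GT w _ _ h2
  rw [tr_tr] at h1' h2'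
  rw [tr_tr, tr_tr] at hz'
  exact ⟨fun a x b => z b x a, hz', h2', h1'⟩

/-- Case B transposed, from case B. -/
theorem BT (hB : ST_B) : ST_BT := by
  intro w G G₁ G₂ μ hw hG h1 h2 hc hμ hc1 hc2
  apply StepC_tr
  apply hB w (tr G) (tr G₂) (tr G₁) (fun a b => μ b a) hw (IsCore_tr hG) (IsCore_tr h2)
    (IsCore_tr h1)
  · rw [comp_tr]
    rintro ⟨a, b⟩ hab
    rw [mem_tr] at hab ⊢
    exact hc hab
  · exact GT w G μ hμ
  · rw [card_tr, card_tr]; exact hc2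
  · rw [card_tr, card_tr]; exact hc1

end Pool.Agent.Helper75.PL
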